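import Pool.Agent.H804.RP.Low
import Pool.Agent.H804.OP.Ex

/-!
# Sharp short closed geodesics for metrics with Hopf symmetry on real projective spaces

`IsProfileRP L f h`: `dr² + f(r)² g_V + h(r)² g_H`, `0 ≤ r ≤ L`, is a smooth metric on `S^N` invariant under
the antipodal map, i.e. a metric on `ℝP^N`, where `g_V` and `g_H` are the restrictions of the round metric of
`S^{N-1}` to the tangent spaces of the fibres of a Hopf fibration and to their orthogonal complements: the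
complex one (`N = 2 n`), the quaternionic one (`N = 4 n`) or the octonionic one (`N = 16`).
`IsGeodesicUS`, `IsGeodesicHS`, `IsGeodesicOS`: geodesics of speed `v` of these metrics on `S^N`.  There is a
unit speed geodesic with `γ(t + T) = -γ(t)`, i.e. a non-contractible closed geodesic of `ℝP^N` of length `T`,
such that `T^N ∫_0^π sin^{N-1} ≤ π^N ∫_0^L f^a h^{N-1-a}` (`a = 1, 3, 7`).  So if the volume is that of the
standard metric, there is a closed geodesic of length `≤ π`.  For the standard metric (`f = h = sin`, `L = π`)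
every closed geodesic has length `≥ π`.
-/

open Real Set MeasureTheory Quaternion

namespace Pool.Agent.Results.MP_02f065_gt.HopfProjective

open H738CP H804OP H804US H804RP

theorem result :
    (∀ (L : ℝ) (f h : ℝ → ℝ), IsProfileRP L f h →
      -- `U(n)`-invariant metrics on `ℝP^{2n}`
      (∀ n : ℕ, 2 ≤ n →
        ∃ (γ : ℝ → EuclideanSpace ℂ (Fin n) × ℝ) (T : ℝ), 0 < T ∧
          IsGeodesicUS L f h 1 γ ∧ (∀ t, γ (t + T) = -γ t) ∧
          T ^ (2 * n) * (∫ t in (0 : ℝ)..π, Real.sin t ^ (2 * n - 1)) ≤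
            π ^ (2 * n) * ∫ r in (0 : ℝ)..L, f r * h r ^ (2 * n - 2)) ∧
      -- `Sp(n)Sp(1)`-invariant metrics on `ℝP^{4n}`
      (∀ n : ℕ, 2 ≤ n →
        ∃ (γ : ℝ → (Fin n → ℍ[ℝ]) × ℝ) (T : ℝ), 0 < T ∧
          IsGeodesicHS L f h 1 γ ∧ (∀ t, γ (t + T) = -γ t) ∧
          T ^ (4 * n) * (∫ t in (0 : ℝ)..π, Real.sin t ^ (4 * n - 1)) ≤
            π ^ (4 * n) * ∫ r in (0 : ℝ)..L, f r ^ 3 * h r ^ (4 * n - 4)) ∧
      -- `Spin(9)`-invariant metrics on `ℝP^16`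
      (∀ A : Fin 9 → E16 →L[ℝ] E16, IsClifford A →
        ∃ (γ : ℝ → E16 × ℝ) (T : ℝ), 0 < T ∧
          IsGeodesicOS A L f h 1 γ ∧ (∀ t, γ (t + T) = -γ t) ∧
          T ^ 16 * (∫ t in (0 : ℝ)..π, Real.sin t ^ 15) ≤
            π ^ 16 * ∫ r in (0 : ℝ)..L, f r ^ 7 * h r ^ 8)) ∧
    -- optimality: the standard metric
    (∃ A : Fin 9 → E16 →L[ℝ] E16, IsClifford A) ∧
    IsProfileRP π Real.sin Real.sin ∧
    (∀ (n : ℕ) (γ : ℝ → EuclideanSpace ℂ (Fin n) × ℝ) (v T : ℝ), 0 < v → 0 < T →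
      IsGeodesicUS π Real.sin Real.sin v γ →
      (∀ t, γ (t + T) = -γ t) ∨ (∀ t, γ (t + T) = γ t) → π ≤ v * T) ∧
    (∀ (n : ℕ) (γ : ℝ → (Fin n → ℍ[ℝ]) × ℝ) (v T : ℝ), 0 < v → 0 < T →
      IsGeodesicHS π Real.sin Real.sin v γ →
      (∀ t, γ (t + T) = -γ t) ∨ (∀ t, γ (t + T) = γ t) → π ≤ v * T) ∧
    (∀ (A : Fin 9 → E16 →L[ℝ] E16) (γ : ℝ → E16 × ℝ) (v T : ℝ), 0 < v → 0 < T →
      IsGeodesicOS A π Real.sin Real.sin v γ →
      (∀ t, γ (t + T) = -γ t) ∨ (∀ t, γ (t + T) = γ t) → π ≤ v * T) :=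
  ⟨fun _ _ _ hf => ⟨fun _ hn => Main.short_US hf hn, fun _ hn => Main.short_HS hf hn,
      fun _ hA => Main.short_OS hA hf⟩,
    Ex.exists_clifford, Low.profile_round,
    fun _ _ _ _ hv hT hγ hper => H804RP.Low.low_US hv hT hγ hper,
    fun _ _ _ _ hv hT hγ hper => H804RP.Low.low_HS hv hT hγ hper,
    fun _ _ _ _ hv hT hγ hper => H804RP.Low.low_OS hv hT hγ hper⟩

end Pool.Agent.Results.MP_02f065_gt.HopfProjective
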